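import Pool.Agent.Y462.EI.Main
import Pool.Agent.Y110.FJ.Crit
import Pool.Agent.Y497.FJ.Col
import Pool.Agent.Y576.FJ.Hnn
import Pool.Agent.Y529.FJ.Ext
import Pool.Agent.Y961.FJ.Perm
import Pool.Agent.Y812.SS.Wr
import Pool.Agent.Y919.PA.Emb
import Pool.Agent.Y419.PA.Tla
import Pool.Agent.Y312.EI.W
import Pool.Agent.Y474.EI.HA
import Pool.Agent.Y756.EI.Qa

/-!
# Amalgamated products: the ingredients without hypotheses

Owner helper462; helpers 110, 497, 576, 529, 961, 812, 919, 419, 312, 474, 756.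
-/

set_option autoImplicit false

namespace Pool.Agent.Y462.EI

open Pool.Agent.Y462.PA (Am S_TLA)
open Pool.Agent.Y110.FJ (ClosedE S_HNN S_CRIT S_PERM Amg)

theorem perm_ : S_PERM := Pool.Agent.Y961.FJ.t_perm Pool.Agent.Y529.FJ.t_ext

theorem hnn_ : S_HNN := Pool.Agent.Y576.FJ.t_hnn perm_

theorem crit_ : S_CRIT :=
  Pool.Agent.Y110.FJ.t_crit (Pool.Agent.Y497.FJ.t_col hnn_) Pool.Agent.Y529.FJ.t_ext

theorem w_ : S_W := Pool.Agent.Y312.EI.t_w crit_ Pool.Agent.Y812.SS.t_wr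

theorem ha_ : S_HA := Pool.Agent.Y474.EI.t_ha

theorem qa_ : S_QA := Pool.Agent.Y756.EI.t_qa

theorem tla_ : S_TLA := Pool.Agent.Y419.PA.t_tla (Pool.Agent.Y919.PA.t_emb perm_)

end Pool.Agent.Y462.EI
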