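import Pool.Agent.Y462.EI.Gog
import Pool.Agent.Y462.EI.Parts
import Pool.Agent.Y936.EI.HH
import Pool.Agent.Y528.EI.Hnn
import Pool.Agent.Y417.EI.Mxo
import Pool.Agent.Y96.EI.Colx
import Pool.Agent.Y287.EI.Mxe

/-!
# Graphs of groups: the theorem

Owner helper462; helpers 936, 528, 417, 96, 287.
-/

set_option autoImplicit false

namespace Pool.Agent.Y462.EI

open Pool.Agent.Y462.PA (Am S_TLA)
open Pool.Agent.Y110.FJ (ClosedE S_HNN S_CRIT S_PERM Amg)

/-- **graphs of groups** -/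
theorem graph (C : ∀ (G : Type) [Group G], Prop) (hC : ClosedE C) (V E : Type) (G : V → Type)
    [∀ v, Group (G v)] (hG : ∀ v, C (G v)) (s t : E → V) (H : E → Type) [∀ e, Group (H e)]
    (σ : ∀ e, H e →* G (s e)) (τ : ∀ e, H e →* G (t e))
    (hloc : ∀ F : Finset (Σ e, H e), ∃ (P : Type) (_ : Group P) (f : ∀ v, G v →* P) (x : E → P),
      C P ∧ ∀ e, ∀ h ∈ cl F e, x e * f (t e) (τ e h) = f (s e) (σ e h) * x e ∧
        (f (t e) (τ e h) = 1 → h = 1)) :
    C (MX (fun e => (Monoid.CoprodI.of (i := t e)).comp (τ e))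
      (fun e => (Monoid.CoprodI.of (i := s e)).comp (σ e))) :=
  graph_local hC w_ Pool.Agent.Y936.EI.t_hh Pool.Agent.Y528.EI.t_qh hnn_
    Pool.Agent.Y417.EI.t_mxo Pool.Agent.Y287.EI.t_mxe Pool.Agent.Y96.EI.t_colx
    Pool.Agent.Y287.EI.t_ci G hG s t H σ τ hloc

end Pool.Agent.Y462.EI
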