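import Pool.Agent.Y462.EI.Stm
import Pool.Agent.Y462.PA.Tool

/-!
# Amalgamated products with a homomorphism injective on the edge group: assembly

Owner helper462.
-/

set_option autoImplicit false

namespace Pool.Agent.Y462.EI

open Pool.Agent.Y462.SS (Wr Closed)
open Pool.Agent.Y462.PA (Am TL tl_top of_TL S_TLA)
open Pool.Agent.Y110.FJ (ClosedE Amg S_HNN)

variable {C : ∀ (G : Type) [Group G], Prop}

/-- amalgamated products with a homomorphism injective on both factors -/
theorem am_vertex (hC : ClosedE C) (hTLA : S_TLA) {K A B P : Type} [Group K] [Group A] [Group B]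
    [Group P] (α : K →* A) (β : K →* B) (hα : Function.Injective α) (hβ : Function.Injective β)
    (f : Am α β →* P) (hP : C P) (h1 : ∀ a, f (Am.inl α β a) = 1 → a = 1)
    (h2 : ∀ b, f (Am.inr α β b) = 1 → b = 1) : C (Am α β) := by
  have h3 := hTLA C hC K A B α β hα hβ {⊤} {⊤} (tl_top _) (tl_top _) ⟨⊤, rfl, le_top⟩
    ⟨⊤, rfl, le_top⟩
  refine of_TL hC.base h3 f hP ?_
  rintro _ (⟨_, rfl, rfl⟩ | ⟨_, rfl, rfl⟩)
  · rintro _ ⟨a, -, rfl⟩ h
    rw [h1 a h, map_one]
  · rintro _ ⟨a, -, rfl⟩ h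
    rw [h2 a h, map_one]

/-- the finitely supported elements -/
def FinSub (I E : Type) [Group E] : Subgroup (Wr I E) where
  carrier := {w | Fin1 w}
  one_mem' := ⟨rfl, by
    have : {x : I | (1 : Wr I E).s x ≠ 1} = ∅ := by
      ext x
      simp
    rw [this]
    exact Set.finite_empty⟩
  mul_mem' := by
    rintro a b ⟨ha, ha'⟩ ⟨hb, hb'⟩
    refine ⟨by rw [Wr.mul_p, ha, hb, one_mul], ?_⟩
    refine (ha'.union hb').subset ?_
    intro x hx
    by_contra h
    rw [Set.mem_union, not_or] at h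
    apply hx
    have h1 : a.s x = 1 := not_not.1 h.1
    have h2 : b.s x = 1 := not_not.1 h.2
    rw [Wr.mul_s, hb, Equiv.Perm.one_apply, h1, h2, one_mul]
  inv_mem' := by
    rintro a ⟨ha, ha'⟩
    refine ⟨by rw [Wr.inv_p, ha, inv_one], ?_⟩
    refine ha'.subset ?_
    intro x hx h
    apply hx
    rw [Wr.inv_s, ha, inv_one, Equiv.Perm.one_apply, h, inv_one]

instance (I E : Type) [Group E] : (FinSub I E).Normal := ⟨by
  rintro n ⟨hn, hn'⟩ g
  refine ⟨by rw [Wr.mul_p, Wr.mul_p, hn, Wr.inv_p, mul_one, mul_inv_cancel], ?_⟩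
  refine (hn'.image g.p).subset ?_
  intro x hx
  refine ⟨g.p⁻¹ x, ?_, g.p.apply_symm_apply x⟩
  intro h
  apply hx
  rw [Wr.mul_s, Wr.inv_p, Wr.mul_s, hn, Equiv.Perm.one_apply, h, mul_one, Wr.inv_s,
    mul_inv_cancel]⟩

/-- the group generated by the quotient and the representation -/
theorem C_pair (hC : ClosedE C) (hW : S_W) {G I E : Type} [Group G] [Group E] (M : Subgroup G)
    [M.Normal] (h : G →* Wr I E) (hM : M ≤ (FinSub I E).comap h) (hE : C E) (hQ : C (G ⧸ M)) :
    C ((QuotientGroup.mk' M).prod h).range := by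
  let N : Subgroup ((QuotientGroup.mk' M).prod h).range :=
    ((MonoidHom.fst (G ⧸ M) (Wr I E)).comp ((QuotientGroup.mk' M).prod h).range.subtype).ker
  refine hW C hC _ I E N
    ((MonoidHom.snd (G ⧸ M) (Wr I E)).comp ((QuotientGroup.mk' M).prod h).range.subtype)
    ?_ ?_ hE ?_
  · rintro ⟨_, ⟨g, rfl⟩⟩ hn
    have h1 : QuotientGroup.mk' M g = 1 := hn
    exact hM ((QuotientGroup.eq_one_iff g).1 h1)
  · intro n hn hn'
    apply Subtype.ext
    exact Prod.ext hn hn'
  · exact hC.base.of_injective _ _ (QuotientGroup.kerLift _)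
      (QuotientGroup.kerLift_injective _) hQ

variable {K A B P : Type} [Group K] [Group A] [Group B] [Group P] (α : K →* A) (β : K →* B)
  (f : A →* P) (g : B →* P)

/-- the normal closure of the kernels -/
noncomputable def Mk : Subgroup (Am α β) := Subgroup.normalClosure
      ((Am.inl α β) '' (f.ker : Set A) ∪ (Am.inr α β) '' (g.ker : Set B))

instance : (Mk α β f g).Normal := Subgroup.normalClosure_normal

/-- the quotient is in the class -/
theorem C_quot (hC : ClosedE C) (hTLA : S_TLA) (hQA : S_QA) (hP : C P)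
    (hfg : ∀ c, f (α c) = g (β c)) (hinj : Function.Injective (f.comp α)) :
    C (Am α β ⧸ Mk α β f g) := by
  obtain ⟨j, hj⟩ := hQA K A B P α β f g hfg
  refine hC.base.of_injective _ _ j hj ?_
  have h1 : ∀ c, f.range.subtype ((f.rangeRestrict.comp α) c) =
      g.range.subtype ((g.rangeRestrict.comp β) c) := hfg
  refine am_vertex hC hTLA _ _ ?_ ?_ (Am.lift _ _ f.range.subtype g.range.subtype h1) hP ?_ ?_
  · intro a b hab
    exact hinj (congrArg Subtype.val hab)
  · intro a b hab
    have h2 : g (β a) = g (β b) := congrArg Subtype.val hab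
    rw [← hfg, ← hfg] at h2
    exact hinj h2
  · intro a ha
    rw [Am.lift_inl] at ha
    exact Subtype.ext ha
  · intro a ha
    rw [Am.lift_inr] at ha
    exact Subtype.ext ha

theorem half (hC : ClosedE C) (hW : S_W) (hHA : S_HA) (hTLA : S_TLA) (hQA : S_QA) (hP : C P)
    (hA : C A) (hfg : ∀ c, f (α c) = g (β c)) (hinj : Function.Injective (f.comp α)) :
    ∃ (Q : Type) (_ : Group Q) (r : Am α β →* Q), C Q ∧ ∀ a, r (Am.inl α β a) = 1 → a = 1 := by
  obtain ⟨I, h, h1, h2, h3⟩ := hHA K A B P α β f g hfg hinj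
  have hM : Mk α β f g ≤ (FinSub I A).comap h := by
    apply Subgroup.normalClosure_le_normal
    rintro _ (⟨a, ha, rfl⟩ | ⟨b, hb, rfl⟩)
    · exact h2 a ha
    · have h4 : h (Am.inr α β b) = 1 := h3 b hb
      change h (Am.inr α β b) ∈ FinSub I A
      rw [h4]
      exact one_mem _
  refine ⟨((QuotientGroup.mk' (Mk α β f g)).prod h).range, inferInstance,
    ((QuotientGroup.mk' (Mk α β f g)).prod h).rangeRestrict,
    C_pair hC hW (Mk α β f g) h hM hA (C_quot α β f g hC hTLA hQA hP hfg hinj), ?_⟩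
  intro a ha
  have h5 := congrArg Subtype.val ha
  exact h1 a (congrArg Prod.snd h5)

/-- exchange of the factors -/
noncomputable def swap : Am α β →* Am β α :=
  Am.lift α β (Am.inr β α) (Am.inl β α) (fun c => (Am.glue β α c).symm)

/-- **amalgamated products with a homomorphism injective on the edge group** -/
theorem edge (hC : ClosedE C) (hW : S_W) (hHA : S_HA) (hTLA : S_TLA) (hQA : S_QA) (hP : C P)
    (hA : C A) (hB : C B) (hfg : ∀ c, f (α c) = g (β c)) (hinj : Function.Injective (f.comp α)) :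
    C (Am α β) := by
  obtain ⟨Q1, _, r1, hQ1, hr1⟩ := half α β f g hC hW hHA hTLA hQA hP hA hfg hinj
  have hinj' : Function.Injective (g.comp β) := by
    intro a b hab
    apply hinj
    change f (α a) = f (α b)
    rw [hfg, hfg]
    exact hab
  obtain ⟨Q2, _, r2, hQ2, hr2⟩ := half β α g f hC hW hHA hTLA hQA hP hB
    (fun c => (hfg c).symm) hinj'
  have i1 : Function.Injective α := fun a b hab => hinj (congrArg f hab)
  have i2 : Function.Injective β := fun a b hab => hinj' (congrArg g hab)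
  refine am_vertex hC hTLA α β i1 i2 (r1.prod (r2.comp (swap α β)))
    (hC.base.prod _ _ hQ1 hQ2) ?_ ?_
  · intro a ha
    exact hr1 a (congrArg Prod.fst ha)
  · intro b hb
    apply hr2
    have h1 : r2 (swap α β (Am.inr α β b)) = 1 := congrArg Prod.snd hb
    rw [swap, Am.lift_inr] at h1
    exact h1

/-- **local version** -/
theorem edge_local (hC : ClosedE C) (hW : S_W) (hHA : S_HA) (hTLA : S_TLA) (hQA : S_QA)
    (hCOLA : S_COLA) (hA : C A) (hB : C B)
    (hloc : ∀ F : Finset K, ∃ (P : Type) (_ : Group P) (f : A →* P) (g : B →* P), C P ∧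
      (∀ c ∈ Subgroup.closure (F : Set K), f (α c) = g (β c)) ∧
      ∀ c ∈ Subgroup.closure (F : Set K), f (α c) = 1 → c = 1) : C (Am α β) := by
  refine hCOLA C hC.base K A B α β ?_
  intro F
  obtain ⟨P, _, f, g, hP, h1, h2⟩ := hloc F
  refine edge _ _ f g hC hW hHA hTLA hQA hP hA hB (fun c => h1 c.1 c.2) ?_
  rw [injective_iff_map_eq_one]
  intro c hc
  exact Subtype.ext (h2 c.1 c.2 hc)

end Pool.Agent.Y462.EI
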