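import Pool.Agent.Y462.EI.Stm

/-!
# Fundamental groups of graphs of groups: statements

Owner helper462.
-/

set_option autoImplicit false

namespace Pool.Agent.Y462.EI

open Pool.Agent.Y462.SS (Wr Closed)
open Pool.Agent.Y110.FJ (ClosedE Amg)

section MX

variable {M E : Type} [Group M] {H : E → Type} [∀ e, Group (H e)]

/-- the relations `e * α e h * e⁻¹ = β e h` -/
def mxRel (α β : ∀ e, H e →* M) : Set (Monoid.Coprod M (FreeGroup E)) :=
  {r | ∃ (e : E) (h : H e), r = Monoid.Coprod.inr (FreeGroup.of e) * Monoid.Coprod.inl (α e h) *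
    (Monoid.Coprod.inr (FreeGroup.of e))⁻¹ * (Monoid.Coprod.inl (β e h))⁻¹}

/-- the multiple HNN extension: `M` and stable letters `e` with `e * α e h * e⁻¹ = β e h` -/
def MX (α β : ∀ e, H e →* M) : Type :=
  Monoid.Coprod M (FreeGroup E) ⧸ Subgroup.normalClosure (mxRel α β)

namespace MX

variable (α β : ∀ e, H e →* M)

noncomputable instance : Group (MX α β) :=
  inferInstanceAs (Group (Monoid.Coprod M (FreeGroup E) ⧸ Subgroup.normalClosure (mxRel α β)))

/-- the base group -/
noncomputable def of : M →* MX α β :=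
  (QuotientGroup.mk' (Subgroup.normalClosure (mxRel α β))).comp Monoid.Coprod.inl

/-- the stable letters -/
noncomputable def st (e : E) : MX α β :=
  QuotientGroup.mk' (Subgroup.normalClosure (mxRel α β)) (Monoid.Coprod.inr (FreeGroup.of e))

theorem rel (e : E) (h : H e) : st α β e * of α β (α e h) = of α β (β e h) * st α β e := by
  have h1 : QuotientGroup.mk' (Subgroup.normalClosure (mxRel α β))
      (Monoid.Coprod.inr (FreeGroup.of e) * Monoid.Coprod.inl (α e h) *
    (Monoid.Coprod.inr (FreeGroup.of e))⁻¹ * (Monoid.Coprod.inl (β e h))⁻¹) = 1 :=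
    (QuotientGroup.eq_one_iff _).2 (Subgroup.subset_normalClosure ⟨e, h, rfl⟩)
  rw [map_mul, map_mul, map_mul, map_inv, map_inv, mul_inv_eq_one] at h1
  rw [mul_inv_eq_iff_eq_mul] at h1
  exact h1

variable {L : Type} [Group L]

/-- the universal property -/
noncomputable def lift (f : M →* L) (x : E → L) (hx : ∀ e h, x e * f (α e h) = f (β e h) * x e) :
    MX α β →* L :=
  QuotientGroup.lift (Subgroup.normalClosure (mxRel α β))
    (Monoid.Coprod.lift f (FreeGroup.lift x)) (by
    intro y hy
    refine Subgroup.normalClosure_le_normal ?_ hy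
    rintro _ ⟨e, h, rfl⟩
    rw [SetLike.mem_coe, MonoidHom.mem_ker, map_mul, map_mul, map_mul, map_inv, map_inv,
      Monoid.Coprod.lift_apply_inl, Monoid.Coprod.lift_apply_inl, Monoid.Coprod.lift_apply_inr,
      FreeGroup.lift_apply_of, hx, mul_inv_cancel_right, mul_inv_cancel])

theorem lift_of (f : M →* L) (x : E → L) (hx : ∀ e h, x e * f (α e h) = f (β e h) * x e) (m : M) :
    lift α β f x hx (of α β m) = f m := by
  change Monoid.Coprod.lift f (FreeGroup.lift x) (Monoid.Coprod.inl m) = f m
  rw [Monoid.Coprod.lift_apply_inl]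

theorem lift_st (f : M →* L) (x : E → L) (hx : ∀ e h, x e * f (α e h) = f (β e h) * x e) (e : E) :
    lift α β f x hx (st α β e) = x e := by
  change Monoid.Coprod.lift f (FreeGroup.lift x) (Monoid.Coprod.inr (FreeGroup.of e)) = x e
  rw [Monoid.Coprod.lift_apply_inr, FreeGroup.lift_apply_of]

theorem hom_ext {f g : MX α β →* L} (h1 : ∀ m, f (of α β m) = g (of α β m))
    (h2 : ∀ e, f (st α β e) = g (st α β e)) : f = g := by
  apply QuotientGroup.monoidHom_ext
  apply Monoid.Coprod.hom_ext
  · exact MonoidHom.ext h1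
  · exact FreeGroup.ext_hom _ _ h2

theorem range_eq (f : L →* MX α β) (h1 : ∀ m, of α β m ∈ f.range) (h2 : ∀ e, st α β e ∈ f.range) :
    Function.Surjective f := by
  rw [← MonoidHom.range_eq_top, eq_top_iff]
  intro x _
  obtain ⟨y, rfl⟩ := QuotientGroup.mk'_surjective (Subgroup.normalClosure (mxRel α β)) x
  induction y using Monoid.Coprod.induction_on with
  | inl a => exact h1 a
  | inr b =>
    have h3 : ((QuotientGroup.mk' (Subgroup.normalClosure (mxRel α β))).comp
        (Monoid.Coprod.inr (M := M) (N := FreeGroup E))).range ≤ f.range := by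
      rw [MonoidHom.range_eq_map, ← FreeGroup.closure_range_of, MonoidHom.map_closure]
      refine (Subgroup.closure_le _).2 ?_
      rintro _ ⟨_, ⟨e, rfl⟩, rfl⟩
      exact h2 e
    exact h3 ⟨b, rfl⟩
  | mul x y hx hy =>
    rw [map_mul]
    exact mul_mem (hx trivial) (hy trivial)

end MX

end MX

/-- **EI-MXO** one more stable letter -/
def S_MXO : Prop := ∀ (M P E : Type) [Group M] [Group P] (H : Option E → Type)
  [∀ e, Group (H e)] (α β : ∀ e, H e →* M) (f : M →* P) (x : Option E → P),
  (∀ e h, x e * f (α e h) = f (β e h) * x e) → (∀ h : H none, f (α none h) = 1 → h = 1) →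
  ∃ (A B : Subgroup (MX (fun e => α (some e)) (fun e => β (some e)))) (φ : A ≃* B)
    (j : MX α β →* HNNExtension (MX (fun e => α (some e)) (fun e => β (some e))) A B φ)
    (F : HNNExtension (MX (fun e => α (some e)) (fun e => β (some e))) A B φ →* P),
    Function.Injective j ∧ (∀ m, F (HNNExtension.of (MX.of _ _ m)) = f m) ∧
    ∀ a ∈ A, F (HNNExtension.of a) = 1 → a = 1

/-- **EI-MXE** change of the index set, and no stable letters -/
def S_MXE : Prop :=
  (∀ (M E E' : Type) [Group M] (t : E ≃ E') (H : E' → Type) [∀ e, Group (H e)]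
    (α β : ∀ e, H e →* M), ∃ j : MX α β →* MX (fun e => α (t e)) (fun e => β (t e)),
      Function.Injective j) ∧
  ∀ (M : Type) [Group M] (H : Empty → Type) [∀ e, Group (H e)]
    (α β : ∀ e, H e →* M), ∃ j : MX α β →* M, Function.Injective j

/-- the subgroup of `H e` generated by the members of `F` -/
def cl {E : Type} {H : E → Type} [∀ e, Group (H e)] (F : Finset (Σ e, H e)) (e : E) :
    Subgroup (H e) := Subgroup.closure {h | (⟨e, h⟩ : Σ e, H e) ∈ F}

/-- **EI-COLX** multiple HNN extensions as directed colimits -/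
def S_COLX : Prop := ∀ C : ∀ (G : Type) [Group G], Prop, Closed C →
  ∀ (M E : Type) [Group M] (H : E → Type) [∀ e, Group (H e)] (α β : ∀ e, H e →* M),
    (∀ F : Finset (Σ e, H e), ∀ S : Finset E,
      C (MX (fun e : S => (α e.1).comp (cl F e.1).subtype)
        (fun e : S => (β e.1).comp (cl F e.1).subtype))) → C (MX α β)

/-- **EI-CI** free products -/
def S_CI : Prop := ∀ C : ∀ (G : Type) [Group G], Prop, Closed C →
  ∀ (V : Type) (G : V → Type) [∀ v, Group (G v)], (∀ v, C (G v)) → C (Monoid.CoprodI G)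

end Pool.Agent.Y462.EI
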