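import Pool.Agent.Y462.EI.Hnn
import Pool.Agent.Y462.EI.Stm2

/-!
# Graphs of groups with a homomorphism injective on the edge groups: assembly

Owner helper462.
-/

set_option autoImplicit false

namespace Pool.Agent.Y462.EI

open Pool.Agent.Y462.SS (Wr Closed)
open Pool.Agent.Y110.FJ (ClosedE S_HNN)

variable {C : ∀ (G : Type) [Group G], Prop}

/-- finitely many stable letters -/
theorem mx_fin (hC : ClosedE C) (hW : S_W) (hHH : S_HH) (hQH : S_QH) (hHNN : S_HNN)
    (hMXO : S_MXO) (hMXE : S_MXE) {M P : Type} [Group M] [Group P] (hM : C M) (hP : C P)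
    (f : M →* P) (E : Type) (hE : Finite E) : ∀ (H : E → Type) [∀ e, Group (H e)]
    (α β : ∀ e, H e →* M) (x : E → P), (∀ e h, x e * f (α e h) = f (β e h) * x e) →
    (∀ e (h : H e), f (α e h) = 1 → h = 1) → C (MX α β) := by
  refine Finite.induction_empty_option (P := fun E => ∀ (H : E → Type) [∀ e, Group (H e)]
    (α β : ∀ e, H e →* M) (x : E → P), (∀ e h, x e * f (α e h) = f (β e h) * x e) →
    (∀ e (h : H e), f (α e h) = 1 → h = 1) → C (MX α β)) ?_ ?_ ?_ E
  · intro E E' t ih H _ α β x h1 h2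
    obtain ⟨j, hj⟩ := hMXE.1 M E E' t H α β
    exact hC.base.of_injective _ _ j hj
      (ih (fun e => H (t e)) (fun e => α (t e)) (fun e => β (t e)) (fun e => x (t e))
        (fun e h => h1 (t e) h) (fun e h => h2 (t e) h))
  · intro H _ α β x _ _
    obtain ⟨j, hj⟩ := hMXE.1 M Empty PEmpty (Equiv.equivPEmpty Empty) H α β
    obtain ⟨j', hj'⟩ := hMXE.2 M (fun e => H ((Equiv.equivPEmpty Empty) e))
      (fun e => α ((Equiv.equivPEmpty Empty) e)) (fun e => β ((Equiv.equivPEmpty Empty) e))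
    exact hC.base.of_injective _ _ j hj (hC.base.of_injective _ _ j' hj' hM)
  · intro E _ ih H _ α β x h1 h2
    obtain ⟨A, B, φ, j, F, hj, -, hF⟩ := hMXO M P E H α β f x h1 (h2 none)
    refine hC.base.of_injective _ _ j hj ?_
    exact hnn_edge hC hW hHH hQH hHNN A B φ F hP
      (ih (fun e => H (some e)) (fun e => α (some e)) (fun e => β (some e)) (fun e => x (some e))
        (fun e h => h1 (some e) h) (fun e h => h2 (some e) h)) hF

/-- **local version** -/
theorem mx_local (hC : ClosedE C) (hW : S_W) (hHH : S_HH) (hQH : S_QH) (hHNN : S_HNN)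
    (hMXO : S_MXO) (hMXE : S_MXE) (hCOLX : S_COLX) {M E : Type} [Group M] (hM : C M)
    (H : E → Type) [∀ e, Group (H e)] (α β : ∀ e, H e →* M)
    (hloc : ∀ F : Finset (Σ e, H e), ∃ (P : Type) (_ : Group P) (f : M →* P) (x : E → P), C P ∧
      ∀ e, ∀ h ∈ cl F e, x e * f (α e h) = f (β e h) * x e ∧ (f (α e h) = 1 → h = 1)) :
    C (MX α β) := by
  refine hCOLX C hC.base M E H α β ?_
  intro F S
  obtain ⟨P, _, f, x, hP, h1⟩ := hloc F
  refine mx_fin hC hW hHH hQH hHNN hMXO hMXE hM hP f S inferInstance _ _ _ (fun e => x e.1) ?_ ?_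
  · intro e h
    exact (h1 e.1 h.1 h.2).1
  · intro e h hh
    exact Subtype.ext ((h1 e.1 h.1 h.2).2 hh)

/-- **graphs of groups** -/
theorem graph_local (hC : ClosedE C) (hW : S_W) (hHH : S_HH) (hQH : S_QH) (hHNN : S_HNN)
    (hMXO : S_MXO) (hMXE : S_MXE) (hCOLX : S_COLX) (hCI : S_CI) {V E : Type} (G : V → Type)
    [∀ v, Group (G v)] (hG : ∀ v, C (G v)) (s t : E → V) (H : E → Type) [∀ e, Group (H e)]
    (σ : ∀ e, H e →* G (s e)) (τ : ∀ e, H e →* G (t e))
    (hloc : ∀ F : Finset (Σ e, H e), ∃ (P : Type) (_ : Group P) (f : ∀ v, G v →* P) (x : E → P),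
      C P ∧ ∀ e, ∀ h ∈ cl F e, x e * f (t e) (τ e h) = f (s e) (σ e h) * x e ∧
        (f (t e) (τ e h) = 1 → h = 1)) :
    C (MX (fun e => (Monoid.CoprodI.of (i := t e)).comp (τ e))
      (fun e => (Monoid.CoprodI.of (i := s e)).comp (σ e))) := by
  refine mx_local hC hW hHH hQH hHNN hMXO hMXE hCOLX (hCI C hC.base V G hG) H _ _ ?_
  intro F
  obtain ⟨P, _, f, x, hP, h1⟩ := hloc F
  refine ⟨P, _, Monoid.CoprodI.lift f, x, hP, ?_⟩
  intro e h hh
  have h2 := h1 e h hh
  simp only [MonoidHom.comp_apply, Monoid.CoprodI.lift_of]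
  exact h2

end Pool.Agent.Y462.EI
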