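import Pool.Agent.Y462.EI.Main

/-!
# HNN extensions with a homomorphism injective on the associated subgroup: assembly

Owner helper462.
-/

set_option autoImplicit false

namespace Pool.Agent.Y462.EI

open Pool.Agent.Y462.SS (Wr Closed)
open Pool.Agent.Y110.FJ (ClosedE S_HNN)

variable {C : ∀ (G : Type) [Group G], Prop}

theorem hnn_edge (hC : ClosedE C) (hW : S_W) (hHH : S_HH) (hQH : S_QH) (hHNN : S_HNN)
    {M P : Type} [Group M] [Group P] (A B : Subgroup M) (φ : A ≃* B)
    (f : HNNExtension M A B φ →* P) (hP : C P) (hM : C M)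
    (hinj : ∀ a ∈ A, f (HNNExtension.of a) = 1 → a = 1) : C (HNNExtension M A B φ) := by
  have hQ : C (HNNExtension M A B φ ⧸ Subgroup.normalClosure
      (HNNExtension.of '' ((f.comp HNNExtension.of).ker : Set M))) := by
    obtain ⟨M', _, A', B', φ', j, f', hj, hf'⟩ := hQH M P A B φ f hinj
    refine hC.base.of_injective _ _ j hj ?_
    exact hHNN C hC M' P A' B' φ' f' hf' hP
  obtain ⟨I, h, h1, h2⟩ := hHH M P A B φ (f.comp HNNExtension.of) (f HNNExtension.t)
    (fun a => by
      change f HNNExtension.t * f (HNNExtension.of (a : M)) =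
        f (HNNExtension.of (φ a : M)) * f HNNExtension.t
      rw [← map_mul, ← map_mul, HNNExtension.t_mul_of]) hinj
  have hN : Subgroup.normalClosure
      (HNNExtension.of '' ((f.comp HNNExtension.of).ker : Set M)) ≤ (FinSub I M).comap h := by
    apply Subgroup.normalClosure_le_normal
    rintro _ ⟨m, hm, rfl⟩
    exact h2 m hm
  have h3 := C_pair hC hW _ h hN hM hQ
  refine hHNN C hC M _ A B φ ((QuotientGroup.mk' (Subgroup.normalClosure
      (HNNExtension.of '' ((f.comp HNNExtension.of).ker : Set M)))).prod h).rangeRestrict ?_ h3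
  rw [injective_iff_map_eq_one]
  intro m hm
  have h5 := congrArg Subtype.val hm
  exact h1 m (congrArg Prod.snd h5)

/-- **local version** -/
theorem hnn_local (hC : ClosedE C) (hW : S_W) (hHH : S_HH) (hQH : S_QH) (hHNN : S_HNN)
    (hCOLH : S_COLH) {M : Type} [Group M] (A B : Subgroup M) (φ : A ≃* B) (hM : C M)
    (hloc : ∀ F : Finset A, ∃ (P : Type) (_ : Group P) (f : M →* P) (x : P), C P ∧
      (∀ a ∈ Subgroup.closure (F : Set A), x * f (a : M) = f (φ a : M) * x) ∧
      ∀ a ∈ Subgroup.closure (F : Set A), f (a : M) = 1 → a = 1) :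
    C (HNNExtension M A B φ) := by
  refine hCOLH C hC.base M A B φ ?_
  intro F
  obtain ⟨P, _, f, x, hP, h1, h2⟩ := hloc F
  have i1 : Function.Injective A.subtype := Subtype.val_injective
  have i2 : Function.Injective (B.subtype.comp φ.toMonoidHom) :=
    Subtype.val_injective.comp φ.injective
  let e1 := (Subgroup.closure (F : Set A)).equivMapOfInjective A.subtype i1
  let e2 := (Subgroup.closure (F : Set A)).equivMapOfInjective (B.subtype.comp φ.toMonoidHom) i2
  have hA : (Subgroup.closure (F : Set A)).map A.subtype ≤ A := by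
    rintro _ ⟨a, -, rfl⟩
    exact a.2
  have key : ∀ a : ↥((Subgroup.closure (F : Set A)).map A.subtype),
      ∃ a' : ↥(Subgroup.closure (F : Set A)), e1 a' = a ∧ ((a' : A) : M) = a ∧
        (((e1.symm.trans e2) a : M)) = (φ (a' : A) : M) := by
    intro a
    refine ⟨e1.symm a, e1.apply_symm_apply a, ?_, rfl⟩
    exact congrArg Subtype.val (e1.apply_symm_apply a)
  refine ⟨(Subgroup.closure (F : Set A)).map A.subtype,
    (Subgroup.closure (F : Set A)).map (B.subtype.comp φ.toMonoidHom), e1.symm.trans e2, hA, rfl,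
    ?_, ?_⟩
  · intro a
    obtain ⟨a', -, ha, ha'⟩ := key a
    rw [ha']
    congr 2
    exact Subtype.ext ha
  · refine hnn_edge hC hW hHH hQH hHNN _ _ _ (HNNExtension.lift f x ?_) hP hM ?_
    · intro a
      obtain ⟨a', -, ha, ha'⟩ := key a
      rw [ha', ← ha]
      exact h1 a' a'.2
    · rintro _ ⟨a, ha, rfl⟩ h
      rw [HNNExtension.lift_of] at h
      have h4 := h2 a ha h
      rw [h4]
      rfl

end Pool.Agent.Y462.EI
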