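import Pool.Agent.Y462.PA.Def
import Mathlib.GroupTheory.HNNExtension

/-!
# Amalgamated products and HNN extensions with a homomorphism injective on the edge group: statements

Owner helper462.
-/

set_option autoImplicit false

namespace Pool.Agent.Y462.EI

open Pool.Agent.Y462.SS (Wr Closed)
open Pool.Agent.Y462.PA (Am)
open Pool.Agent.Y110.FJ (ClosedE Amg)

/-- elements of the wreath product which are finitely supported and fix all points -/
def Fin1 {I E : Type} [Group E] (w : Wr I E) : Prop := w.p = 1 ∧ {x | w.s x ≠ 1}.Finite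

/-- **EI-W** groups with a normal subgroup of finitely supported elements of a wreath product -/
def S_W : Prop := ∀ C : ∀ (G : Type) [Group G], Prop, ClosedE C →
  ∀ (G I E : Type) [Group G] [Group E] (N : Subgroup G) [N.Normal] (h : G →* Wr I E),
    (∀ n ∈ N, Fin1 (h n)) → (∀ n ∈ N, h n = 1 → n = 1) → C E → C (G ⧸ N) → C G

/-- **EI-MON** the monomial representation -/
def S_MON : Prop := ∀ (K D : Type) [Group K] [Group D] (w : K →* D), Function.Injective w →
  ∃ m : D →* Wr (D ⧸ w.range) K, (∀ d x, (m d).p x = d • x) ∧ ∀ c : K, (m (w c)).s (1 : D) = c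

/-- **EI-HA** the representation of an amalgamated product -/
def S_HA : Prop := ∀ (K A B D : Type) [Group K] [Group A] [Group B] [Group D]
  (α : K →* A) (β : K →* B) (u : A →* D) (v : B →* D), (∀ c, u (α c) = v (β c)) →
  Function.Injective (u.comp α) →
  ∃ (I : Type) (h : Am α β →* Wr I A), (∀ a, h (Am.inl α β a) = 1 → a = 1) ∧
    (∀ a, u a = 1 → Fin1 (h (Am.inl α β a))) ∧ ∀ b, v b = 1 → h (Am.inr α β b) = 1

/-- **EI-COLA** amalgamated products as directed colimits -/
def S_COLA : Prop := ∀ C : ∀ (G : Type) [Group G], Prop, Closed C →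
  ∀ (K A B : Type) [Group K] [Group A] [Group B] (α : K →* A) (β : K →* B),
    (∀ F : Finset K, C (Am (α.comp (Subgroup.closure (F : Set K)).subtype)
      (β.comp (Subgroup.closure (F : Set K)).subtype))) → C (Am α β)

/-- **EI-QA** the quotient of an amalgamated product by the kernels on the factors -/
def S_QA : Prop := ∀ (K A B P : Type) [Group K] [Group A] [Group B] [Group P]
  (α : K →* A) (β : K →* B) (f : A →* P) (g : B →* P), (∀ c, f (α c) = g (β c)) →
  ∃ j : Am α β ⧸ Subgroup.normalClosure
      ((Am.inl α β) '' (f.ker : Set A) ∪ (Am.inr α β) '' (g.ker : Set B)) →*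
    Am (f.rangeRestrict.comp α) (g.rangeRestrict.comp β), Function.Injective j

/-- **EI-AMG** internal amalgamated products -/
def S_AMG : Prop := ∀ (G : Type) [Group G] (A B K : Subgroup G) (h : Amg A B K),
  ∃ j : G →* Am (Subgroup.inclusion h.le_left) (Subgroup.inclusion h.le_right),
    Function.Injective j

/-- **EI-HH** the representation of an HNN extension -/
def S_HH : Prop := ∀ (M D : Type) [Group M] [Group D] (A B : Subgroup M) (φ : A ≃* B)
  (u : M →* D) (τ : D), (∀ a : A, τ * u (a : M) = u (φ a : M) * τ) → (∀ a ∈ A, u a = 1 → a = 1) →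
  ∃ (I : Type) (h : HNNExtension M A B φ →* Wr I M),
    (∀ m, h (HNNExtension.of m) = 1 → m = 1) ∧ ∀ m, u m = 1 → Fin1 (h (HNNExtension.of m))

/-- **EI-COLH** HNN extensions as directed colimits -/
def S_COLH : Prop := ∀ C : ∀ (G : Type) [Group G], Prop, Closed C →
  ∀ (M : Type) [Group M] (A B : Subgroup M) (φ : A ≃* B),
    (∀ F : Finset A, ∃ (A' B' : Subgroup M) (φ' : A' ≃* B') (hA : A' ≤ A),
      A' = (Subgroup.closure (F : Set A)).map A.subtype ∧
      (∀ a : A', (φ' a : M) = (φ (Subgroup.inclusion hA a) : M)) ∧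
      C (HNNExtension M A' B' φ')) → C (HNNExtension M A B φ)

/-- **EI-QH** the quotient of an HNN extension by the kernel on the base -/
def S_QH : Prop := ∀ (M P : Type) [Group M] [Group P] (A B : Subgroup M) (φ : A ≃* B)
  (f : HNNExtension M A B φ →* P), (∀ a ∈ A, f (HNNExtension.of a) = 1 → a = 1) →
  ∃ (M' : Type) (_ : Group M') (A' B' : Subgroup M') (φ' : A' ≃* B')
    (j : HNNExtension M A B φ ⧸ Subgroup.normalClosure
      (HNNExtension.of '' ((f.comp HNNExtension.of).ker : Set M)) →* HNNExtension M' A' B' φ')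
    (f' : HNNExtension M' A' B' φ' →* P), Function.Injective j ∧
    Function.Injective (f'.comp HNNExtension.of)

end Pool.Agent.Y462.EI
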